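import Mathlib

/-!
# `p`-adic closures of rational points: modules over a field of endomorphisms

Let `A` be a simple abelian variety over `ℚ`, `E` a (commutative) subfield of `End_ℚ(A) ⊗ ℚ`, `p` a
prime. We show that the conclusion of the question holds for every subgroup `L` of `A(ℚ)` whose image
in `A(ℚ) ⊗ ℚ` is contained in `E · P` for one point `P`: the `ℤ_p`-rank of its closure in `A(ℚ_p)` is
its rank. If `[E : ℚ] = dim A` (abelian varieties of `GL(2)`-type, that is the modular abelian
varieties `A_f`), then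

* if `L` contains, up to finite index, the `E`-module generated by a point of infinite order, its
  closure is open in `A(ℚ_p)`, for every `p`;
* if moreover the rank of `A(ℚ)` is `dim A` (for `A_f` this is the case if `L(f, s)` has a simple zero at
  the centre, by Gross, Zagier and Kolyvagin), the question has a positive answer for `A`, for all
  subgroups `L` and all primes `p`.

The main hypothesis `AnalyticSubgroupTheorem` is the `p`-adic analytic subgroup theorem (Matev; Fuchs
and Pham) for `A`: the logarithm of a rational point of infinite order does not lie in a proper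
subspace of the Lie algebra which is defined over the algebraic numbers, since a simple `A` has no
proper algebraic subgroup which contains such a point.

Proof. For `σ : E → ℚ̄_p` there is a functional `l` on the Lie algebra, with algebraic values, such that
`l (e t) = σ(e) l(t)`. By the analytic subgroup theorem `l (log P) ≠ 0`. So a relation
`∑ c_i log (e_i P) = 0`, `c_i ∈ ℚ_p`, gives `∑ c_i σ(e_i) = 0` for all `σ`, and all `c_i` are zero if the
`e_i` are linearly independent over `ℚ`, since the discriminant is not zero (`columns`).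
-/

open scoped TensorProduct
open Module

set_option autoImplicit false

namespace Pool.Agent.Results.MP_52423f_nt.CyclicEndomorphismModules

/-- **The rational points of an abelian variety `A` over `ℚ`** and a field `E` contained in
`End_ℚ(A) ⊗ ℚ`: `M = A(ℚ)`, `V = A(ℚ) ⊗ ℚ` with the action of `E`, `toV` the natural map. -/
structure RationalPoints (E : Type) [Field E] [Algebra ℚ E] where
  /-- the group of the rational points -/
  M : Type
  grpM : AddCommGroup M
  /-- the group of the rational points, tensored with `ℚ` -/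
  V : Type
  grpV : AddCommGroup V
  modV : Module ℚ V
  modEV : Module E V
  towerV : IsScalarTower ℚ E V
  /-- the natural map -/
  toV : M →+ V

attribute [instance] RationalPoints.grpM RationalPoints.grpV RationalPoints.modV
  RationalPoints.modEV RationalPoints.towerV

/-- **The Lie algebra** `T = Lie(A)` of `A` (over `ℚ`), of dimension `dim A > 0`, with the action of
`E`, and the topology of `ℚ_p ⊗ T` as a vector space of finite dimension over `ℚ_p`. -/
structure LieAlg (p : ℕ) [Fact p.Prime] (E : Type) [Field E] [Algebra ℚ E] where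
  /-- the Lie algebra -/
  T : Type
  grpT : AddCommGroup T
  modT : Module ℚ T
  modET : Module E T
  towerT : IsScalarTower ℚ E T
  finT : FiniteDimensional ℚ T
  nontrivialT : Nontrivial T
  top : TopologicalSpace (ℚ_[p] ⊗[ℚ] T)
  topGrp : IsTopologicalAddGroup (ℚ_[p] ⊗[ℚ] T)
  topSMul : ContinuousSMul ℚ_[p] (ℚ_[p] ⊗[ℚ] T)
  t2 : T2Space (ℚ_[p] ⊗[ℚ] T)

attribute [instance] LieAlg.grpT LieAlg.modT LieAlg.modET LieAlg.towerT LieAlg.finT
  LieAlg.nontrivialT LieAlg.top LieAlg.topGrp LieAlg.topSMul LieAlg.t2

/-- The Lie algebra over `ℚ_p`. -/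
abbrev LieP {p : ℕ} [Fact p.Prime] {E : Type} [Field E] [Algebra ℚ E] (Z : LieAlg p E) : Type :=
  ℚ_[p] ⊗[ℚ] Z.T

/-- **The `p`-adic points:** `G = A(ℚ_p)` and the logarithm `log : A(ℚ_p) → ℚ_p ⊗ Lie(A)`, which is
continuous. -/
structure PadicPoints {p : ℕ} [Fact p.Prime] {E : Type} [Field E] [Algebra ℚ E]
    (Z : LieAlg p E) where
  /-- the group of the `p`-adic points -/
  G : Type
  grpG : AddCommGroup G
  topG : TopologicalSpace G
  /-- the logarithm -/
  log : G →+ LieP Z
  continuous_log : Continuous log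

attribute [instance] PadicPoints.grpG PadicPoints.topG

/-- The action of `E` on the Lie algebra over `ℚ_p`. -/
noncomputable def act {p : ℕ} [Fact p.Prime] {E : Type} [Field E] [Algebra ℚ E]
    (Z : LieAlg p E) (e : E) : LieP Z →ₗ[ℚ_[p]] LieP Z :=
  LinearMap.baseChange ℚ_[p] (DistribSMul.toLinearMap ℚ Z.T e)

/-- The logarithm commutes with the endomorphisms. -/
def Equivariant {p : ℕ} [Fact p.Prime] {E : Type} [Field E] [Algebra ℚ E] (W : RationalPoints E)
    {Z : LieAlg p E} (A : PadicPoints Z) (ι : W.M →+ A.G) : Prop :=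
  ∀ (e : E) (x y : W.M), W.toV y = e • W.toV x → A.log (ι y) = act Z e (A.log (ι x))

/-- **The `p`-adic analytic subgroup theorem** for a simple `A`: for `x ∈ A(ℚ)` of infinite order and a
nonzero functional `l` on `Lie(A)` with algebraic values (in an algebraically closed field `Ω` which
contains `ℚ_p`, for instance `ℂ_p`) one has `l (log x) ≠ 0`. -/
def AnalyticSubgroupTheorem {p : ℕ} [Fact p.Prime] {E : Type} [Field E] [Algebra ℚ E] (Ω : Type)
    [Field Ω] [Algebra ℚ Ω] [Algebra ℚ_[p] Ω] [IsScalarTower ℚ ℚ_[p] Ω] (W : RationalPoints E)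
    {Z : LieAlg p E} (A : PadicPoints Z) (ι : W.M →+ A.G) : Prop :=
  ∀ x : W.M, W.toV x ≠ 0 → ∀ l : Z.T →ₗ[ℚ] Ω, l ≠ 0 → (∀ t, IsAlgebraic ℚ (l t)) →
    l.liftBaseChange ℚ_[p] (A.log (ι x)) ≠ 0

/-- The rank of a subgroup `L` of `A(ℚ)`: the dimension of the span of its image in `A(ℚ) ⊗ ℚ`. -/
noncomputable def rk {E : Type} [Field E] [Algebra ℚ E] (W : RationalPoints E)
    (L : AddSubgroup W.M) : ℕ :=
  finrank ℚ (Submodule.span ℚ (W.toV '' (L : Set W.M)))

/-- The span over `ℚ_p` of the logarithms of the closure of `L` in `A(ℚ_p)`. -/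
noncomputable def closureSpan {p : ℕ} [Fact p.Prime] {E : Type} [Field E] [Algebra ℚ E] (W : RationalPoints E)
    {Z : LieAlg p E} (A : PadicPoints Z) (ι : W.M →+ A.G) (L : AddSubgroup W.M) :
    Submodule ℚ_[p] (LieP Z) :=
  Submodule.span ℚ_[p] (A.log '' closure (ι '' (L : Set W.M)))

/-- The `ℤ_p`-rank of the closure of `L` in `A(ℚ_p)`: the logarithm is a local isomorphism with finite
kernel, so that the `ℤ_p`-rank of a closed subgroup `H` of `A(ℚ_p)` is the dimension of the span of
`log H` over `ℚ_p`. -/
noncomputable def closureRank {p : ℕ} [Fact p.Prime] {E : Type} [Field E] [Algebra ℚ E]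
    (W : RationalPoints E) {Z : LieAlg p E} (A : PadicPoints Z) (ι : W.M →+ A.G)
    (L : AddSubgroup W.M) : ℕ :=
  finrank ℚ_[p] (closureSpan W A ι L)

section Algebra

/-- The columns of the matrix of the conjugates are linearly independent. -/
theorem columns {E Ω : Type} [Field E] [Algebra ℚ E] [FiniteDimensional ℚ E] [Field Ω]
    [Algebra ℚ Ω] [IsAlgClosed Ω] {m : ℕ} (e : Fin m → E) (he : LinearIndependent ℚ e)
    (c : Fin m → Ω) (h : ∀ σ : E →ₐ[ℚ] Ω, ∑ i, c i * σ (e i) = 0) : c = 0 := by
  classical
  have : CharZero E := algebraRat.charZero E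
  let b := finBasis ℚ E
  have hcard : Fintype.card (Fin (finrank ℚ E)) = Fintype.card (E →ₐ[ℚ] Ω) := by
    rw [Fintype.card_fin, AlgHom.card]
  let eq : Fin (finrank ℚ E) ≃ (E →ₐ[ℚ] Ω) := Fintype.equivOfCardEq hcard
  -- the matrix of the conjugates of a basis is invertible
  have hdet : (Algebra.embeddingsMatrixReindex ℚ Ω b eq).det ≠ 0 := by
    intro h0
    have h1 := Algebra.discr_eq_det_embeddingsMatrixReindex_pow_two ℚ Ω b eq
    rw [h0, zero_pow two_ne_zero] at h1
    have h2 : Algebra.discr ℚ b = 0 := by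
      rwa [map_eq_zero] at h1
    exact Algebra.discr_not_zero_of_basis ℚ b h2
  let A : Fin m → Fin (finrank ℚ E) → ℚ := fun i k => b.repr (e i) k
  have hA : ∀ i, e i = ∑ k, A i k • b k := fun i => (b.sum_repr (e i)).symm
  let w : Fin (finrank ℚ E) → Ω := fun k => ∑ i, c i * algebraMap ℚ Ω (A i k)
  have hw : w = 0 := by
    have hmul : Matrix.vecMul w (Algebra.embeddingsMatrixReindex ℚ Ω b eq) = 0 := by
      funext j
      have h3 := h (eq j)
      have h4 : ∀ i, (eq j) (e i) = ∑ k, algebraMap ℚ Ω (A i k) * (eq j) (b k) := by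
        intro i
        conv_lhs => rw [hA i]
        rw [map_sum]
        refine Finset.sum_congr rfl fun k _ => ?_
        rw [map_smul, Algebra.smul_def]
      change ∑ k, w k * (eq j) (b k) = 0
      rw [← h3]
      simp only [w, h4, Finset.sum_mul, Finset.mul_sum]
      rw [Finset.sum_comm]
      refine Finset.sum_congr rfl fun i _ => Finset.sum_congr rfl fun k _ => ?_
      ring
    exact Matrix.eq_zero_of_vecMul_eq_zero hdet hmul
  -- dual functionals
  funext j
  obtain ⟨f, hf⟩ : ∃ f : E →ₗ[ℚ] ℚ, ∀ i, f (e i) = if i = j then 1 else 0 := by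
    obtain ⟨f, hf⟩ := LinearMap.exists_extend ((Basis.span he).coord j)
    refine ⟨f, fun i => ?_⟩
    have h5 : f (e i) = (f ∘ₗ (Submodule.span ℚ (Set.range e)).subtype)
      (Basis.span he i) := by
      rw [LinearMap.comp_apply, Submodule.subtype_apply, Basis.span_apply]
    rw [h5, hf, Basis.coord_apply, Basis.repr_self, Finsupp.single_apply]
  have h6 : ∀ i, ∑ k, A i k * f (b k) = if i = j then 1 else 0 := by
    intro i
    rw [← hf i]
    conv_rhs => rw [hA i]
    rw [map_sum]
    refine Finset.sum_congr rfl fun k _ => ?_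
    rw [map_smul, smul_eq_mul]
  have h7 : ∑ k, w k * algebraMap ℚ Ω (f (b k)) = c j := by
    calc ∑ k, w k * algebraMap ℚ Ω (f (b k))
        = ∑ i, c i * algebraMap ℚ Ω (∑ k, A i k * f (b k)) := by
          simp only [w, Finset.sum_mul, map_sum, map_mul, Finset.mul_sum]
          rw [Finset.sum_comm]
          refine Finset.sum_congr rfl fun i _ => Finset.sum_congr rfl fun k _ => ?_
          ring
      _ = ∑ i, c i * algebraMap ℚ Ω (if i = j then 1 else 0) := by simp only [h6]
      _ = c j := by
          rw [Finset.sum_eq_single j]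
          · simp
          · intro i _ hi
            simp [hi]
          · intro hj
            exact absurd (Finset.mem_univ _) hj
  rw [← h7, hw]
  simp

end Algebra

section Main

variable {p : ℕ} [Fact p.Prime] {E : Type} [Field E] [Algebra ℚ E] [FiniteDimensional ℚ E]
  {Ω : Type} [Field Ω] [Algebra ℚ Ω] [Algebra ℚ_[p] Ω] [IsScalarTower ℚ ℚ_[p] Ω]

omit [FiniteDimensional ℚ E] in
theorem lift_act (Z : LieAlg p E) (σ : E →ₐ[ℚ] Ω) (l : Z.T →ₗ[ℚ] Ω)
    (hl : ∀ (e : E) (t : Z.T), l (e • t) = σ e * l t) (e : E) (z : LieP Z) :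
    l.liftBaseChange ℚ_[p] (act Z e z) = σ e * l.liftBaseChange ℚ_[p] z := by
  induction z using TensorProduct.induction_on with
  | zero => simp
  | tmul a t =>
    simp only [act, LinearMap.baseChange_tmul, LinearMap.liftBaseChange_tmul,
      DistribSMul.toLinearMap_apply, hl]
    rw [mul_smul_comm]
  | add x y hx hy => rw [map_add, map_add, map_add, hx, hy, mul_add]

omit [FiniteDimensional ℚ E] in
theorem act_sum (Z : LieAlg p E) {m : ℕ} (q : Fin m → ℚ) (e : Fin m → E)
    (z : LieP Z) : act Z (∑ i, q i • e i) z = ∑ i, (q i : ℚ_[p]) • act Z (e i) z := by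
  induction z using TensorProduct.induction_on with
  | zero => simp
  | tmul a t =>
    simp only [act, LinearMap.baseChange_tmul, DistribSMul.toLinearMap_apply, Finset.sum_smul,
      TensorProduct.tmul_sum]
    refine Finset.sum_congr rfl fun i _ => ?_
    rw [smul_assoc, TensorProduct.tmul_smul, Rat.cast_smul_eq_qsmul]
  | add x y hx hy => 
    simp only [map_add, hx, hy, smul_add, Finset.sum_add_distrib]

/-- For independent `e i` the logarithms of the `e i • P` are linearly independent. -/
theorem independent [IsAlgClosed Ω] (W : RationalPoints E) {Z : LieAlg p E} (A : PadicPoints Z)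
    (ι : W.M →+ A.G) (analytic : AnalyticSubgroupTheorem Ω W A ι) {m : ℕ} (e : Fin m → E)
    (he : LinearIndependent ℚ e) (P : W.M) (hP : W.toV P ≠ 0) :
    LinearIndependent ℚ_[p] (fun i => act Z (e i) (A.log (ι P))) := by
  rw [Fintype.linearIndependent_iff]
  intro c hc
  have key : (fun i => algebraMap ℚ_[p] Ω (c i)) = 0 := by
    refine columns e he _ fun σ => ?_
    -- an eigenfunctional
    obtain ⟨t, ht⟩ := exists_ne (0 : Z.T)
    obtain ⟨f, hf⟩ : ∃ f : Dual E Z.T, f t ≠ 0 := by
      by_contra hcon
      push Not at hcon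
      exact ht ((forall_dual_apply_eq_zero_iff E t).1 hcon)
    let l : Z.T →ₗ[ℚ] Ω := σ.toLinearMap ∘ₗ (f.restrictScalars ℚ)
    have hl : ∀ (e : E) (t : Z.T), l (e • t) = σ e * l t := fun e t => by
      change σ (f (e • t)) = σ e * σ (f t)
      rw [map_smul, smul_eq_mul, map_mul]
    have hl0 : l ≠ 0 := by
      intro h0
      have h1 : σ (f t) = 0 := by
        have := congrArg (fun g : Z.T →ₗ[ℚ] Ω => g t) h0
        exact this
      exact hf ((map_eq_zero σ).1 h1)
    have halg : ∀ t, IsAlgebraic ℚ (l t) := fun t =>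
      (Algebra.IsAlgebraic.isAlgebraic (R := ℚ) (f t)).algHom σ
    have hne := analytic P hP l hl0 halg
    have h2 := congrArg (l.liftBaseChange ℚ_[p]) hc
    rw [map_zero, map_sum] at h2
    have h3 : (∑ i, algebraMap ℚ_[p] Ω (c i) * σ (e i)) *
        l.liftBaseChange ℚ_[p] (A.log (ι P)) = 0 := by
      rw [Finset.sum_mul, ← h2]
      refine Finset.sum_congr rfl fun i _ => ?_
      rw [map_smul, lift_act Z σ l hl, Algebra.smul_def, mul_assoc]
    exact (mul_eq_zero.1 h3).resolve_right hne
  intro i
  have := congrFun key i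
  exact (map_eq_zero (algebraMap ℚ_[p] Ω)).1 this


omit [FiniteDimensional ℚ E] in
/-- The closure of a subgroup has the same span of logarithms as the subgroup. -/
theorem span_closure {Z : LieAlg p E} (A : PadicPoints Z) (H : Set A.G) :
    Submodule.span ℚ_[p] (A.log '' closure H) = Submodule.span ℚ_[p] (A.log '' H) := by
  refine le_antisymm (Submodule.span_le.2 ?_)
    (Submodule.span_mono (Set.image_mono subset_closure))
  have hclosed : IsClosed (Submodule.span ℚ_[p] (A.log '' H) : Set (LieP Z)) :=
    Submodule.closed_of_finiteDimensional _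
  calc A.log '' closure H ⊆ closure (A.log '' H) := image_closure_subset_closure_image
          A.continuous_log
    _ ⊆ closure (Submodule.span ℚ_[p] (A.log '' H) : Set (LieP Z)) :=
        closure_mono Submodule.subset_span
    _ = _ := hclosed.closure_eq

/-- The rank of the closure of a subgroup of `E • P`. -/
theorem rank_cyclic [IsAlgClosed Ω] (W : RationalPoints E) {Z : LieAlg p E} (A : PadicPoints Z)
    (ι : W.M →+ A.G) (equiv : Equivariant W A ι) (analytic : AnalyticSubgroupTheorem Ω W A ι)
    (L : AddSubgroup W.M)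
    (P : W.M) (hP : W.toV P ≠ 0) (hL : ∀ x ∈ L, ∃ e : E, W.toV x = e • W.toV P) :
    closureRank W A ι L = rk W L := by
  unfold closureRank closureSpan rk
  rw [span_closure]
  have hfin : Module.Finite ℚ (Submodule.span ℚ (W.toV '' (L : Set W.M))) := by
    let f : E →ₗ[ℚ] W.V := (LinearMap.toSpanSingleton E W.V (W.toV P)).restrictScalars ℚ
    refine Submodule.finiteDimensional_of_le (S₂ := LinearMap.range f) (Submodule.span_le.2 ?_)
    rintro _ ⟨x, hx, rfl⟩
    obtain ⟨e, he⟩ := hL x hx
    exact ⟨e, he.symm⟩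
  obtain ⟨v, hv, hspan, hind⟩ :=
    Submodule.exists_fun_fin_finrank_span_eq ℚ (W.toV '' (L : Set W.M))
  choose x hxL hx using hv
  choose e he using fun i => hL (x i) (hxL i)
  have hee : LinearIndependent ℚ e := by
    rw [Fintype.linearIndependent_iff] at hind ⊢
    intro q hq
    refine hind q ?_
    have : ∑ i, q i • v i = (∑ i, q i • e i) • W.toV P := by
      rw [Finset.sum_smul]
      refine Finset.sum_congr rfl fun i _ => ?_
      rw [← hx, he, smul_assoc]
    rw [this, hq, zero_smul]
  have hlog : ∀ i, A.log (ι (x i)) = act Z (e i) (A.log (ι P)) := fun i =>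
    equiv (e i) P (x i) (he i)
  have hind2 := independent W A ι analytic e hee P hP
  have hspan2 : Submodule.span ℚ_[p] (A.log '' (ι '' (L : Set W.M))) =
      Submodule.span ℚ_[p] (Set.range fun i => act Z (e i) (A.log (ι P))) := by
    refine le_antisymm (Submodule.span_le.2 ?_) (Submodule.span_le.2 ?_)
    · rintro _ ⟨_, ⟨y, hy, rfl⟩, rfl⟩
      have hy1 : W.toV y ∈ Submodule.span ℚ (Set.range v) := by
        rw [hspan]
        exact Submodule.subset_span ⟨y, hy, rfl⟩
      obtain ⟨q, hq⟩ := (Submodule.mem_span_range_iff_exists_fun ℚ).1 hy1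
      have hy2 : W.toV y = (∑ i, q i • e i) • W.toV P := by
        rw [← hq, Finset.sum_smul]
        refine Finset.sum_congr rfl fun i _ => ?_
        rw [← hx, he, smul_assoc]
      have hy3 : A.log (ι y) = act Z (∑ i, q i • e i) (A.log (ι P)) :=
        equiv _ P y hy2
      rw [SetLike.mem_coe, hy3, act_sum]
      exact Submodule.sum_mem _ fun i _ => Submodule.smul_mem _ _
        (Submodule.subset_span ⟨i, rfl⟩)
    · rintro _ ⟨i, rfl⟩
      refine Submodule.subset_span ⟨ι (x i), ⟨x i, hxL i, rfl⟩, hlog i⟩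
  rw [hspan2, finrank_span_eq_card hind2, Fintype.card_fin]

/-- **The `p`-adic closures of modules over a field of endomorphisms.** Let `A` be a simple abelian variety
over `ℚ`, `E` a field contained in `End_ℚ(A) ⊗ ℚ`, `p` a prime, `L` a subgroup of `A(ℚ)`. (The left hand
sides are the `ℤ_p`-rank of the closure of `L` in `A(ℚ_p)`, the right hand sides the rank of `L`.)
1. If the image of `L` in `A(ℚ) ⊗ ℚ` is contained in `E · P` for some `P ∈ A(ℚ)` of infinite order, then
   the `ℤ_p`-rank of the closure of `L` is the rank of `L`.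
2. If `[E : ℚ] = dim A` and `L` contains a point `P` of infinite order and for each `e ∈ E` a nonzero
   multiple of `e P`, then the closure of `L` has full rank (it is open in `A(ℚ_p)`).
3. If `[E : ℚ] = dim A` and the rank of `A(ℚ)` is `dim A`, then the `ℤ_p`-rank of the closure of every
   subgroup `L` of `A(ℚ)` is the rank of `L`. -/
theorem result (p : ℕ) [Fact p.Prime] (E : Type) [Field E] [Algebra ℚ E] [FiniteDimensional ℚ E]
    (Ω : Type) [Field Ω] [Algebra ℚ Ω] [Algebra ℚ_[p] Ω] [IsScalarTower ℚ ℚ_[p] Ω]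
    [IsAlgClosed Ω] (W : RationalPoints E) (Z : LieAlg p E) (A : PadicPoints Z)
    (ι : W.M →+ A.G) (equiv : Equivariant W A ι) (analytic : AnalyticSubgroupTheorem Ω W A ι) :
    (∀ (L : AddSubgroup W.M) (P : W.M), W.toV P ≠ 0 →
      (∀ x ∈ L, ∃ e : E, W.toV x = e • W.toV P) → closureRank W A ι L = rk W L) ∧
    (finrank ℚ E = finrank ℚ Z.T →
      ∀ (L : AddSubgroup W.M) (P : W.M), P ∈ L → W.toV P ≠ 0 →
        (∀ e : E, ∃ N : ℕ, N ≠ 0 ∧ ∃ x ∈ L, W.toV x = (N : ℚ) • e • W.toV P) →
        closureSpan W A ι L = ⊤) ∧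
    (finrank ℚ E = finrank ℚ Z.T → finrank ℚ W.V = finrank ℚ Z.T →
      ∀ L : AddSubgroup W.M, closureRank W A ι L = rk W L) := by
  refine ⟨fun L P hP hL => rank_cyclic W A ι equiv analytic L P hP hL, fun hE L P _ hP hstab => ?_,
    fun hE hV L => ?_⟩
  · -- the subgroup of `L` of the elements in `E • P`
    let L' : AddSubgroup W.M :=
      { carrier := {x | x ∈ L ∧ ∃ e : E, W.toV x = e • W.toV P}
        zero_mem' := ⟨L.zero_mem, 0, by rw [map_zero, zero_smul]⟩
        add_mem' := by
          rintro x y ⟨hx, e, he⟩ ⟨hy, e', he'⟩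
          exact ⟨L.add_mem hx hy, e + e', by rw [map_add, he, he', add_smul]⟩
        neg_mem' := by
          rintro x ⟨hx, e, he⟩
          exact ⟨L.neg_mem hx, -e, by rw [map_neg, he, neg_smul]⟩ }
    have h1 := rank_cyclic W A ι equiv analytic L' P hP fun x hx => hx.2
    let f : E →ₗ[ℚ] W.V := (LinearMap.toSpanSingleton E W.V (W.toV P)).restrictScalars ℚ
    have hf : Function.Injective f := by
      intro a b hab
      exact smul_left_injective E hP hab
    have h2 : Submodule.span ℚ (W.toV '' (L' : Set W.M)) = LinearMap.range f := by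
      refine le_antisymm (Submodule.span_le.2 ?_) ?_
      · rintro _ ⟨x, hx, rfl⟩
        obtain ⟨e, he⟩ := hx.2
        exact ⟨e, he.symm⟩
      · rintro _ ⟨e, rfl⟩
        obtain ⟨N, hN, x, hx, hxe⟩ := hstab e
        have hN' : (N : ℚ) ≠ 0 := Nat.cast_ne_zero.2 hN
        have h3 : f e = (N : ℚ)⁻¹ • W.toV x := by
          rw [hxe, smul_smul, inv_mul_cancel₀ hN', one_smul]
          rfl
        rw [h3]
        refine Submodule.smul_mem _ _ (Submodule.subset_span ⟨x, ⟨hx, (N : ℚ) • e, ?_⟩, rfl⟩)
        rw [hxe, smul_assoc]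
    unfold closureRank rk at h1
    rw [h2, LinearMap.finrank_range_of_inj hf, hE] at h1
    have h4 : finrank ℚ_[p] (LieP Z) = finrank ℚ Z.T := finrank_baseChange
    have h5 := Submodule.eq_top_of_finrank_eq (h1.trans h4.symm)
    rw [eq_top_iff, ← h5]
    refine Submodule.span_mono (Set.image_mono (closure_mono (Set.image_mono ?_)))
    exact fun x hx => hx.1
  · by_cases h0 : ∀ x ∈ L, W.toV x = 0
    · have hlog0 : ∀ x ∈ L, A.log (ι x) = 0 := by
        intro x hx
        have h1 : W.toV x = (0 : E) • W.toV x := by rw [zero_smul, h0 x hx]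
        rw [equiv 0 x x h1]
        unfold act
        have : DistribSMul.toLinearMap ℚ Z.T (0 : E) = 0 := by
          ext t
          simp
        rw [this, LinearMap.baseChange_zero, LinearMap.zero_apply]
      have e1 : Submodule.span ℚ (W.toV '' (L : Set W.M)) = ⊥ := by
        rw [Submodule.span_eq_bot]
        rintro _ ⟨x, hx, rfl⟩
        exact h0 x hx
      have e2 : Submodule.span ℚ_[p] (A.log '' (ι '' (L : Set W.M))) = ⊥ := by
        rw [Submodule.span_eq_bot]
        rintro _ ⟨_, ⟨x, hx, rfl⟩, rfl⟩
        exact hlog0 x hx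
      unfold closureRank closureSpan rk
      rw [span_closure, e1, e2, finrank_bot, finrank_bot]
    · push Not at h0
      obtain ⟨P, hPL, hP⟩ := h0
      have hT : 0 < finrank ℚ Z.T := finrank_pos
      have h1 : finrank ℚ E * finrank E W.V = finrank ℚ W.V := finrank_mul_finrank ℚ E W.V
      have h2 : finrank E W.V = 1 := by
        rw [hE, hV] at h1
        exact Nat.eq_of_mul_eq_mul_left hT (by rw [h1, mul_one])
      refine rank_cyclic W A ι equiv analytic L P hP fun x _ => ?_
      obtain ⟨e, he⟩ := (finrank_eq_one_iff_of_nonzero' (W.toV P) hP).1 h2 (W.toV x)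
      exact ⟨e, he.symm⟩

end Main

end Pool.Agent.Results.MP_52423f_nt.CyclicEndomorphismModules
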